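import Pool.Agent.H459R3.NS.Defs

/-!
CL-SING: a smooth periodic solution which is not bounded is not bounded near a point of the cube.
-/

set_option autoImplicit false

open MeasureTheory Set Metric
open scoped ContDiff
open H459R3.NS

namespace Pool.Agent.Q299.CL

theorem per_int {F : Type*} {f : V → F} (hf : Per f) (m : Fin 3 → ℤ) (x : V) :
    f (x + fun i => (m i : ℝ)) = f x := by
  have key : ∀ (i : Fin 3) (n : ℤ) (y : V), f (y + Pi.single i (n : ℝ)) = f y := by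
    intro i n
    induction n using Int.induction_on with
    | zero => intro y; simp
    | succ n ih =>
      intro y
      have h1 : y + Pi.single i (((n : ℤ) + 1 : ℤ) : ℝ)
          = (y + Pi.single i ((n : ℤ) : ℝ)) + Pi.single i 1 := by
        push_cast
        rw [Pi.single_add, add_assoc]
      rw [h1, hf, ih]
    | pred n ih =>
      intro y
      have h1 : (y + Pi.single i ((-(n : ℤ) - 1 : ℤ) : ℝ)) + Pi.single i 1
          = y + Pi.single i ((-(n : ℤ) : ℤ) : ℝ) := by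
        push_cast
        rw [add_assoc, ← Pi.single_add]
        congr 2
        ring
      rw [← hf i, h1, ih]
  have h2 : x + (fun i => (m i : ℝ))
      = x + Pi.single 0 (m 0 : ℝ) + Pi.single 1 (m 1 : ℝ) + Pi.single 2 (m 2 : ℝ) := by
    funext j
    fin_cases j <;> simp
  rw [h2, key, key, key]

theorem exists_cube {F : Type*} {f : V → F} (hf : Per f) (x : V) : ∃ y ∈ cube, f x = f y := by
  refine ⟨fun i => Int.fract (x i), ⟨fun i => Int.fract_nonneg _, fun i => (Int.fract_lt_one _).le⟩,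
    ?_⟩
  have h2 := per_int hf (fun i => ⌊x i⌋) (fun i => Int.fract (x i))
  rw [← h2]
  congr 1
  funext i
  exact (Int.fract_add_floor (x i)).symm

/-- A smooth periodic solution which is not bounded has a singular point in the cube. -/
theorem sing (ν T : ℝ) (u : ℝ → V → V) (p : ℝ → V → ℝ) (_hν : 0 < ν) (hT : 0 < T)
    (h : IsSol ν T u p) (hu : ¬ ∃ B : ℝ, ∀ t ∈ Ico 0 T, ∀ x, ‖u t x‖ ≤ B) :
    ∃ a ∈ cube, ∀ B δ : ℝ, 0 < δ → ∃ t ∈ Ioo (T - δ) T, 0 < t ∧ ∃ x ∈ closedBall a δ,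
      B < ‖u t x‖ := by
  by_contra hcon
  push Not at hcon
  apply hu
  choose! B δ hδ hB using hcon
  obtain ⟨s, hs, hcov⟩ := (isCompact_Icc : IsCompact cube).elim_nhds_subcover
    (fun a => ball a (δ a)) (fun a ha => ball_mem_nhds a (hδ a ha))
  -- the minimum of the radii
  obtain ⟨δ₀, hδ₀, hδs⟩ : ∃ δ₀ : ℝ, 0 < δ₀ ∧ ∀ a ∈ s, δ₀ ≤ δ a := by
    rcases s.eq_empty_or_nonempty with rfl | hne
    · exact ⟨1, one_pos, by simp⟩
    · obtain ⟨a, ha, hmin⟩ := s.exists_min_image δ hne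
      exact ⟨δ a, hδ a (hs a ha), hmin⟩
  obtain ⟨t₀, ht₀, ht₀T, htδ⟩ : ∃ t₀ : ℝ, 0 ≤ t₀ ∧ t₀ < T ∧ T - δ₀ < t₀ := by
    refine ⟨max 0 (T - δ₀ / 2), le_max_left _ _, max_lt hT (by linarith), ?_⟩
    exact lt_of_lt_of_le (by linarith) (le_max_right _ _)
  have hc : ContinuousOn (fun z : ℝ × V => u z.1 z.2) (Icc 0 t₀ ×ˢ cube) :=
    h.smooth_u.continuousOn.mono (prod_mono (fun t ht => ⟨ht.1, ht.2.trans_lt ht₀T⟩)
      (subset_univ _))
  obtain ⟨B₁, hB₁⟩ :=
    (isCompact_Icc.prod (isCompact_Icc : IsCompact cube)).exists_bound_of_continuousOn hc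
  refine ⟨max B₁ (∑ a ∈ s, |B a|), fun t ht x => ?_⟩
  obtain ⟨y, hy, hxy⟩ := exists_cube (h.per_u t ht) x
  rw [hxy]
  rcases le_or_gt t t₀ with h1 | h1
  · exact (hB₁ (t, y) ⟨⟨ht.1, h1⟩, hy⟩).trans (le_max_left _ _)
  · obtain ⟨a, ha, hya⟩ := mem_iUnion₂.1 (hcov hy)
    have h2 : t ∈ Ioo (T - δ a) T := ⟨by linarith [hδs a ha], ht.2⟩
    have h3 := hB a (hs a ha) t h2 (lt_of_le_of_lt ht₀ h1) y (ball_subset_closedBall hya)
    have h4 : |B a| ≤ ∑ a ∈ s, |B a| :=
      Finset.single_le_sum (f := fun a => |B a|) (fun _ _ => abs_nonneg _) ha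
    exact (h3.trans ((le_abs_self _).trans h4)).trans (le_max_right _ _)

end Pool.Agent.Q299.CL
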